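import Pool.Agent.Lib.MP_a52643_an.AC.Fin

/-!
On a compact hyperbolic surface every weak limit of the squares of high energy Laplace
eigenfunctions gives mass at most one half to each set of area zero.
-/

open MeasureTheory Filter UpperHalfPlane
open scoped MatrixGroups ContDiff Laplacian Topology

namespace Pool.Agent.Results.MP_a52643_an.HalfAC

open Pool.Agent.Lib.MP_a52643_an

theorem result {Γ : Type} [Group Γ] [Countable Γ] [MulAction Γ ℍ]
    (hΓ : ∀ γ : Γ, ∃ g : SL(2, ℝ), ∀ z : ℍ, γ • z = g • z)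
    (hfree : ∀ (γ : Γ) (z : ℍ), γ • z = z → γ = 1)
    (D : Set ℍ) (hD : IsFundamentalDomain Γ D) (hvol : volume D ≠ ⊤)
    (K : Set ℍ) (hK : IsCompact K) (hcov : ∀ z : ℍ, ∃ γ : Γ, γ • z ∈ K)
    (φ : ℕ → ℍ → ℝ) (lam : ℕ → ℝ) (hlam : Tendsto lam atTop atTop)
    (h1 : ∀ j (γ : Γ) (z : ℍ), φ j (γ • z) = φ j z)
    (h2 : ∀ j, ContDiffOn ℝ ∞ (fun w : ℂ => φ j (ofComplex w)) {w | 0 < w.im})
    (h3 : ∀ j (z : ℂ), 0 < z.im → z.im ^ 2 * Δ (fun w : ℂ => φ j (ofComplex w)) z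
      = -lam j * φ j (ofComplex z))
    (h4 : ∀ j, ∫ z in D, φ j z ^ 2 = 1)
    (m : Measure ℍ) [IsFiniteMeasure m]
    (hlim : ∀ f : ℍ → ℝ, Continuous f → (∀ (γ : Γ) (z : ℍ), f (γ • z) = f z) →
      Tendsto (fun j => ∫ z in D, f z * φ j z ^ 2) atTop (𝓝 (∫ z, f z ∂m)))
    (Z : Set ℍ) (hZ : volume Z = 0) : m Z ≤ 1 / 2 := by
  obtain ⟨l, D', hF, e⟩ := exists_FD hΓ hD hvol
  obtain ⟨j₀, hj⟩ := eventually_atTop.1 (hlam.eventually_ge_atTop (1 / 4))
  have sh : Tendsto (fun j => j + j₀) atTop atTop := tendsto_add_atTop_nat j₀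
  refine AC.half_ac (φ := fun j => φ (j + j₀)) (r := fun j => √(lam (j + j₀) - 1 / 4)) hF hfree hK
    hcov ?_ (fun j => h1 _) (fun j => h2 _) (fun j z hz => ?_)
    (fun j => by rw [setIntegral_congr_set e, h4]) m (fun f cf hf => ?_) hZ
  · exact Real.tendsto_sqrt_atTop.comp (tendsto_atTop_add_const_right _ _ (hlam.comp sh))
  · rw [h3 _ z hz, Real.sq_sqrt (sub_nonneg.2 (hj _ (by omega)))]; ring
  · simp only [setIntegral_congr_set e]
    exact (hlim f cf hf).comp sh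

end Pool.Agent.Results.MP_a52643_an.HalfAC
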