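import Pool.Agent.Lib.MP_a52643_an.QS.Glob

/-!
Quasi-symmetry of Laplace eigenfunctions on closed smooth surfaces. In the chart at `x` the
metric is `σ x` times the Euclidean metric, so the area is `σ x dx dy` and the eigenvalue
equation is `Δ φ = -λ σ x φ`.
-/

open MeasureTheory
open scoped ContDiff Laplacian

namespace Pool.Agent.Results.MP_a52643_an.QuasiSym

open Pool.Agent.Lib.MP_a52643_an

theorem result {X : Type} [TopologicalSpace X] [ChartedSpace ℂ X] [CompactSpace X]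
    [ConnectedSpace X] [MeasurableSpace X] [BorelSpace X] (μ : Measure X) (σ : X → ℂ → ℝ)
    (hσ : ∀ x, ContDiffOn ℝ ∞ (σ x) (chartAt ℂ x).target)
    (hσ0 : ∀ x, ∀ z ∈ (chartAt ℂ x).target, 0 < σ x z)
    (hμ : ∀ x, ∀ A ⊆ (chartAt ℂ x).target, MeasurableSet A →
      μ ((chartAt ℂ x).symm '' A) = ∫⁻ z in A, ENNReal.ofReal (σ x z))
    (U : Set X) (hU : IsOpen U) (hne : U.Nonempty) :
    ∃ c L : ℝ, 0 < c ∧ ∀ (φ : X → ℝ) (lam : ℝ), L ≤ lam → φ ≠ 0 →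
      (∀ x, ContDiffOn ℝ ∞ (φ ∘ (chartAt ℂ x).symm) (chartAt ℂ x).target) →
      (∀ x, ∀ z ∈ (chartAt ℂ x).target,
        Δ (φ ∘ (chartAt ℂ x).symm) z = -lam * σ x z * φ ((chartAt ℂ x).symm z)) →
      ENNReal.ofReal c ≤ min (μ {p ∈ U | 0 < φ p}) (μ {p ∈ U | φ p < 0}) := by
  obtain ⟨c, L, c0, H⟩ := QS.main μ hσ hσ0 hμ U hU hne
  refine ⟨c, L, c0, fun φ lam h1 h2 h3 h4 => le_min (H φ lam h1 h2 ⟨h3, h4⟩) ?_⟩
  simpa using H (-φ) lam h1 (neg_ne_zero.2 h2) (QS.Eig.neg ⟨h3, h4⟩)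

end Pool.Agent.Results.MP_a52643_an.QuasiSym
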