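import Pool.Agent.Lib.MP_a52643_an.H6CAll

/-!
The third moment of Laplace eigenfunctions tends to zero on every negatively curved surface that
is compact, or hyperbolic of finite area.  The metric is `ρ` times the hyperbolic metric; its
Gauss curvature is the quantity in `hcurv`.
-/

open MeasureTheory Filter UpperHalfPlane
open scoped MatrixGroups ContDiff Laplacian

namespace Pool.Agent.Results.MP_a52643_an.ThirdAll

open Pool.Agent.Lib.MP_a52643_an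

theorem result {Γ : Type} [Group Γ] [Countable Γ] [MulAction Γ ℍ]
    (hΓ : ∀ γ : Γ, ∃ g : SL(2, ℝ), ∀ z : ℍ, γ • z = g • z)
    (D : Set ℍ) (hD : IsFundamentalDomain Γ D) (hvol : volume D ≠ ⊤)
    (ρ : ℍ → ℝ) (hρ0 : ∀ z, 0 < ρ z) (hρi : ∀ (γ : Γ) (z : ℍ), ρ (γ • z) = ρ z)
    (hρs : ContDiffOn ℝ ∞ (fun w : ℂ => ρ (ofComplex w)) {w | 0 < w.im})
    (K : Set ℍ) (hK : IsCompact K) (hρK : ∀ z, ρ z ≠ 1 → ∃ γ : Γ, γ • z ∈ K)
    (hcurv : ∀ z : ℍ,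
      (-1 - z.im ^ 2 * Δ (fun w : ℂ => Real.log (ρ (ofComplex w))) z / 2) / ρ z < 0) :
    ∃ C L : ℝ, ∀ (φ : ℍ → ℝ) (lam : ℝ),
      (∀ (γ : Γ) (z : ℍ), φ (γ • z) = φ z) →
      ContDiffOn ℝ ∞ (fun w : ℂ => φ (ofComplex w)) {w | 0 < w.im} →
      (∀ z : ℍ, z.im ^ 2 * Δ (fun w : ℂ => φ (ofComplex w)) z = -lam * ρ z * φ z) →
      ∫ z in D, φ z ^ 2 * ρ z = 1 → L ≤ lam →
      IntegrableOn (fun z => φ z ^ 3 * ρ z) D ∧
        |∫ z in D, φ z ^ 3 * ρ z| ≤ C / √(Real.log lam) := by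
  obtain ⟨l, D', hF, e⟩ := exists_FD hΓ hD hvol
  obtain ⟨C, L, H⟩ := H6C.third_all hF hρ0 hρi hρs hK hρK fun z h => by
    have h1 := hcurv z
    rw [div_neg_iff] at h1
    rcases h1 with h1 | h1 <;> linarith [h1.1, h1.2, hρ0 z]
  refine ⟨C, L, fun φ lam h1 h2 h3 h4 h5 => ?_⟩
  rw [← setIntegral_congr_set e] at h4 ⊢
  obtain ⟨h6, h7⟩ := H φ lam h1 h2 h3 h4 h5
  exact ⟨h6.congr_set_ae e.symm, h7⟩

end Pool.Agent.Results.MP_a52643_an.ThirdAll
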