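import Pool.Agent.Lib.MP_a52643_an.YS.Glob

/-!
The length of the nodal set of Laplace eigenfunctions on closed smooth surfaces. In the chart at
`x` the metric is `σ x` times the Euclidean metric, so the eigenvalue equation is
`Δ φ = -λ σ x φ`.
-/

open MeasureTheory
open scoped ContDiff Laplacian

namespace Pool.Agent.Results.MP_a52643_an.YauSharp

open Pool.Agent.Lib.MP_a52643_an

theorem result {X : Type} [MetricSpace X] [MeasurableSpace X] [BorelSpace X] [ChartedSpace ℂ X]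
    [CompactSpace X] [ConnectedSpace X] (σ : X → ℂ → ℝ)
    (hσ : ∀ x, ContDiffOn ℝ ∞ (σ x) (chartAt ℂ x).target)
    (hL : ∀ x : X, LocallyLipschitzOn (chartAt ℂ x).target (chartAt ℂ x).symm)
    (lam₀ : ℝ) (h₀ : 0 < lam₀) :
    ∃ C : ℝ, ∀ (φ : X → ℝ) (lam : ℝ), lam₀ ≤ lam → φ ≠ 0 →
      (∀ x, ContDiffOn ℝ ∞ (φ ∘ (chartAt ℂ x).symm) (chartAt ℂ x).target) →
      (∀ x, ∀ z ∈ (chartAt ℂ x).target,
        Δ (φ ∘ (chartAt ℂ x).symm) z = -lam * σ x z * φ ((chartAt ℂ x).symm z)) →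
      μH[1] {p | φ p = 0} ≤ ENNReal.ofReal (C * √lam) := by
  obtain ⟨C, -, H⟩ := YS.main5 (σ := fun x z => lam₀ / 3 * σ x z)
    (fun x => contDiffOn_const.mul (hσ x)) hL
  refine ⟨C * √(3 / lam₀), fun φ lam h1 h2 h3 h4 => ?_⟩
  have h := H φ (3 / lam₀ * lam) (by rw [div_mul_eq_mul_div, le_div_iff₀ h₀]; linarith) h2
    ⟨h3, fun x z hz => (h4 x z hz).trans (by field_simp)⟩
  rwa [Real.sqrt_mul (by positivity), ← mul_assoc] at h

end Pool.Agent.Results.MP_a52643_an.YauSharp
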